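import Mathlib
import Pool.Agent.DCH.Fin1

/-!
Let `A` be a context-free language whose cone `T(A)` contains a nonregular bounded language, and let
`T(B) ⊆ T(A)` be such that all bounded languages in `T(B)` are regular. Then there is an infinite strictly
descending chain of principal cones strictly between `T(B)` and `T(A)`. In particular (`B` regular) no
minimal cone of context-free languages contains a nonregular bounded language.
-/

namespace Pool.Agent.Results.MP_6a7e21_lc.BoundedChain

/-- The first component of a word over `(X ∪ {ε}) × (Y ∪ {ε})`: the letters of `X` in it. -/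
def first {X Y : Type} (z : List (Option X × Option Y)) : List X := z.filterMap Prod.fst

/-- The second component of a word over `(X ∪ {ε}) × (Y ∪ {ε})`. -/
def second {X Y : Type} (z : List (Option X × Option Y)) : List Y := z.filterMap Prod.snd

/-- `τ ⊆ X* × Y*` is a rational transduction: it is the set of the pairs `(first z, second z)`, where
`z` runs through a regular language over `(X ∪ {ε}) × (Y ∪ {ε})`, that is, through the labels of the
successful paths of a finite transducer. -/
def IsRational {X Y : Type} (τ : Set (List X × List Y)) : Prop :=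
  ∃ R : Language (Option X × Option Y), R.IsRegular ∧
    ∀ u w, (u, w) ∈ τ ↔ ∃ z ∈ R, first z = u ∧ second z = w

/-- The language `τ(L)`. -/
def image {X Y : Type} (τ : Set (List X × List Y)) (L : Language X) : Language Y :=
  {w | ∃ u ∈ L, (u, w) ∈ τ}

/-- The principal rational cone `T(L) = {τ(L) : τ a rational transduction}`; the alphabets are the
finite sets `Fin n`. -/
def cone {n : ℕ} (L : Language (Fin n)) : Set (Σ m : ℕ, Language (Fin m)) :=
  {K | ∃ τ : Set (List (Fin n) × List (Fin K.1)), IsRational τ ∧ K.2 = image τ L}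

/-- The word `u` repeated `n` times. -/
def power {α : Type} (u : List α) (n : ℕ) : List α := (List.replicate n u).flatten

/-- `L` is bounded of degree `k`: it is contained in `w_1^* ⋯ w_k^*` for some words `w_1, …, w_k`. -/
def BoundedDeg {α : Type} (k : ℕ) (L : Language α) : Prop :=
  ∃ w : Fin k → List α, ∀ u ∈ L, ∃ x : Fin k → ℕ, u = (List.ofFn fun i => power (w i) (x i)).flatten

/-- The theorem. -/
theorem result {n m : ℕ} (A : Language (Fin n)) (B : Language (Fin m)) (hA : A.IsContextFree)
    (hB : ∃ u, u ∈ B) (hBA : cone B ⊆ cone A)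
    (hb : ∃ K ∈ cone A, ∃ k, BoundedDeg k K.2 ∧ ¬ K.2.IsRegular)
    (hr : ∀ K ∈ cone B, ∀ k, BoundedDeg k K.2 → K.2.IsRegular) :
    ∃ (c : ℕ → ℕ) (C : ∀ i, Language (Fin (c i))), ∀ i, (∃ u, u ∈ C i) ∧
      cone B ⊂ cone (C i) ∧ cone (C (i + 1)) ⊂ cone (C i) ∧ cone (C i) ⊂ cone A ∧
      ∀ K ∈ cone (C i), ∀ k ≤ i, BoundedDeg k K.2 → K.2.IsRegular := by
  obtain ⟨C, hC⟩ := DCh.main A B hA hB hBA hb hr
  exact ⟨fun i => (C i).1, fun i => (C i).2, hC⟩

end Pool.Agent.Results.MP_6a7e21_lc.BoundedChain
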