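import Mathlib
import Pool.Agent.LNC.Main

/-!
Let `S` be one of the languages `{a^n b^n}`, `{a^m b^n : n ≤ m}`, `{a^m b^n : m ≤ n}`. If `B` is a linear
language (a member of the cone of the palindromes) whose cone does not contain `S`, then there is an
infinite increasing chain of cones `T(C_0) ⊊ T(C_1) ⊊ …` strictly between `T(B)` and `T(A)`, for all `A`
with `T(B) ⊆ T(A)`, `T(S) ⊆ T(A)` at once.
-/

namespace Pool.Agent.Results.MP_6a7e21_lc.LinearNoCover

/-- The first component of a word over `(X ∪ {ε}) × (Y ∪ {ε})`: the letters of `X` in it. -/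
def first {X Y : Type} (z : List (Option X × Option Y)) : List X := z.filterMap Prod.fst

/-- The second component of a word over `(X ∪ {ε}) × (Y ∪ {ε})`. -/
def second {X Y : Type} (z : List (Option X × Option Y)) : List Y := z.filterMap Prod.snd

/-- `τ ⊆ X* × Y*` is a rational transduction: it is the set of the pairs `(first z, second z)`, where
`z` runs through a regular language over `(X ∪ {ε}) × (Y ∪ {ε})`, that is, through the labels of the
successful paths of a finite transducer. -/
def IsRational {X Y : Type} (τ : Set (List X × List Y)) : Prop :=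
  ∃ R : Language (Option X × Option Y), R.IsRegular ∧
    ∀ u w, (u, w) ∈ τ ↔ ∃ z ∈ R, first z = u ∧ second z = w

/-- The language `τ(L)`. -/
def image {X Y : Type} (τ : Set (List X × List Y)) (L : Language X) : Language Y :=
  {w | ∃ u ∈ L, (u, w) ∈ τ}

/-- The principal rational cone `T(L) = {τ(L) : τ a rational transduction}`; the alphabets are the
finite sets `Fin n`. -/
def cone {n : ℕ} (L : Language (Fin n)) : Set (Σ m : ℕ, Language (Fin m)) :=
  {K | ∃ τ : Set (List (Fin n) × List (Fin K.1)), IsRational τ ∧ K.2 = image τ L}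

/-- The palindromes `v · rev v` over two letters. The cone `T(Pal)` is the family of the linear
languages. -/
def Pal : Language (Fin 2) := {w | ∃ v : List (Fin 2), w = v ++ v.reverse}

/-- The language `{a^n b^n}`, with `a = 0` and `b = 1`. -/
def Seq : Language (Fin 2) :=
  {w | ∃ m n : ℕ, m = n ∧ w = List.replicate m 0 ++ List.replicate n 1}

/-- The language `{a^m b^n : n ≤ m}`. -/
def Sle : Language (Fin 2) :=
  {w | ∃ m n : ℕ, n ≤ m ∧ w = List.replicate m 0 ++ List.replicate n 1}

/-- The language `{a^m b^n : m ≤ n}`. -/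
def Sge : Language (Fin 2) :=
  {w | ∃ m n : ℕ, m ≤ n ∧ w = List.replicate m 0 ++ List.replicate n 1}

/-- The theorem. (The first part, which is well known, shows that every `B` with `T(B) ⊊ T(S)` satisfies
the two hypotheses of the second part.) -/
theorem result (S : Language (Fin 2)) (hS : S = Seq ∨ S = Sle ∨ S = Sge) :
    cone S ⊆ cone Pal ∧
    ∀ (m : ℕ) (B : Language (Fin m)), (∃ w, w ∈ B) → cone B ⊆ cone Pal → ¬ cone S ⊆ cone B →
      ∃ (n : ℕ → ℕ) (C : ∀ k, Language (Fin (n k))),
        (∀ k, (∃ w, w ∈ C k) ∧ cone (C k) ⊆ cone Pal) ∧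
        cone B ⊂ cone (C 0) ∧ (∀ k, cone (C k) ⊂ cone (C (k + 1))) ∧
        ∀ (l : ℕ) (A : Language (Fin l)), cone B ⊆ cone A → cone S ⊆ cone A →
          ∀ k, cone (C k) ⊂ cone A := by
  refine ⟨(LNC.T_subset_iff S LNC.Pal).2 ?_, fun m B hB hlin hSB => ?_⟩
  · rcases hS with rfl | rfl | rfl
    · exact LNC.meq_mem_Pal
    · exact LNC.mle_mem_Pal
    · refine (LNC.ge_iff LNC.Pal).2 ?_
      rw [LNC.Pal_reverse]
      exact LNC.mle_mem_Pal
  · obtain ⟨n, C, h1, h2, h3, h4, h5⟩ := LNC.main B hB
      ((LNC.T_subset_iff B LNC.Pal).1 hlin) S hS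
      (fun h => hSB ((LNC.T_subset_iff S B).2 h))
    refine ⟨n, C, fun k => ⟨h1 k, (LNC.T_subset_iff (C k) LNC.Pal).2 (h2 k)⟩, h3, h4, ?_⟩
    intro l A hA hSA k
    exact h5 k l A ((LNC.T_subset_iff B A).1 hA) ((LNC.T_subset_iff S A).1 hSA)

end Pool.Agent.Results.MP_6a7e21_lc.LinearNoCover
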