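import Mathlib
import Pool.Agent.RC.Main

/-!
The principal rational cone generated by `S = {a^m b^n : m ≠ n}` has no lower cover: if `T(B)` is
strictly contained in `T(S)` then there is a language `C` with `T(B) ⊊ T(C) ⊊ T(S)`; hence also
`T(B) ⊊ T(C) ⊊ T(A)` for every `A` with `T(S) ⊆ T(A)`.
-/

namespace Pool.Agent.Results.MP_6a7e21_lc.NoLowerCover

/-- The first component of a word over `(X ∪ {ε}) × (Y ∪ {ε})`: the letters of `X` in it. -/
def first {X Y : Type} (z : List (Option X × Option Y)) : List X := z.filterMap Prod.fst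

/-- The second component of a word over `(X ∪ {ε}) × (Y ∪ {ε})`. -/
def second {X Y : Type} (z : List (Option X × Option Y)) : List Y := z.filterMap Prod.snd

/-- `τ ⊆ X* × Y*` is a rational transduction: it is the set of the pairs `(first z, second z)`, where
`z` runs through a regular language over `(X ∪ {ε}) × (Y ∪ {ε})`, that is, through the labels of the
successful paths of a finite transducer. -/
def IsRational {X Y : Type} (τ : Set (List X × List Y)) : Prop :=
  ∃ R : Language (Option X × Option Y), R.IsRegular ∧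
    ∀ u w, (u, w) ∈ τ ↔ ∃ z ∈ R, first z = u ∧ second z = w

/-- The language `τ(L)`. -/
def image {X Y : Type} (τ : Set (List X × List Y)) (L : Language X) : Language Y :=
  {w | ∃ u ∈ L, (u, w) ∈ τ}

/-- The principal rational cone `T(L) = {τ(L) : τ a rational transduction}`; the alphabets are the
finite sets `Fin n`. -/
def cone {n : ℕ} (L : Language (Fin n)) : Set (Σ m : ℕ, Language (Fin m)) :=
  {K | ∃ τ : Set (List (Fin n) × List (Fin K.1)), IsRational τ ∧ K.2 = image τ L}

/-- The language `{a^m b^n : m ≠ n}`, with `a = 0` and `b = 1`. -/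
def S : Language (Fin 2) :=
  {w | ∃ m n : ℕ, m ≠ n ∧ w = List.replicate m 0 ++ List.replicate n 1}

/-- The cone generated by `{a^m b^n : m ≠ n}` has no lower cover. -/
theorem result {m : ℕ} (B : Language (Fin m)) (hB : ∃ w, w ∈ B) (h : cone B ⊂ cone S) :
    ∃ (n : ℕ) (C : Language (Fin n)), (∃ w, w ∈ C) ∧ cone B ⊂ cone C ∧ cone C ⊂ cone S ∧
      ∀ (l : ℕ) (A : Language (Fin l)), cone S ⊆ cone A → cone C ⊂ cone A := by
  obtain ⟨n, C, hC, h1, h2⟩ := RCone.main B hB h
  exact ⟨n, C, hC, h1, h2, fun l A hA => lt_of_lt_of_le h2 hA⟩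

end Pool.Agent.Results.MP_6a7e21_lc.NoLowerCover
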